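import Mathlib

set_option autoImplicit false

namespace Pool.Agent.Results.MP_8e541a_co.Ideal

open Finset
open scoped Classical

/- A multigraph: vertex type `V`, edge type `E`, edge `e` has ends `a e` and `b e`. -/
variable {V E : Type} [Fintype V] [Fintype E]

abbrev R := MvPolynomial (Fin 2) ℚ

/-- number of connected components of the spanning subgraph with edge set `A` -/
noncomputable def comps (a b : E → V) (A : Finset E) : ℕ :=
  Nat.card (Quot (fun u v => ∃ e ∈ A, a e = u ∧ b e = v))

noncomputable def rank (a b : E → V) (A : Finset E) : ℕ := Fintype.card V - comps a b A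

noncomputable def tutte (a b : E → V) : R :=
  ∑ A : Finset E, (MvPolynomial.X 0 - 1) ^ (rank a b univ - rank a b A) *
    (MvPolynomial.X 1 - 1) ^ (A.card - rank a b A)

/-- identification of `W ∪ {s}` to the vertex `s` -/
noncomputable def proj (s : V) (W : Finset V) (v : V) : {v // v ∉ W ∨ v = s} :=
  if h : v ∈ W then ⟨s, Or.inr rfl⟩ else ⟨v, Or.inl h⟩

/-- Tutte polynomial of the contraction of `W ∪ {s}` with all loops deleted -/
noncomputable def tutteC (a b : E → V) (s : V) (W : Finset V) : R :=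
  tutte (fun e : {e // proj s W (a e) ≠ proj s W (b e)} => proj s W (a e)) (fun e => proj s W (b e))

theorem count (a b : E → V) (A : Finset E) (C : Type) [Fintype C] :
    (univ.filter (fun σ : V → C => ∀ e ∈ A, σ (a e) = σ (b e))).card =
      Fintype.card C ^ comps a b A := by
  rw [← Fintype.card_subtype, comps, ← Nat.card_eq_fintype_card, ← Nat.card_eq_fintype_card,
    ← Nat.card_fun]
  exact Nat.card_congr
    { toFun := fun σ => Quot.lift σ.1 (fun u v ⟨e, he, h1, h2⟩ => h1 ▸ h2 ▸ σ.2 e he)
      invFun := fun f => ⟨fun v => f (Quot.mk _ v), fun e he =>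
        congrArg f (Quot.sound ⟨e, he, rfl, rfl⟩)⟩
      left_inv := fun σ => rfl
      right_inv := fun f => by ext ⟨v⟩; rfl }

theorem rank_le (a b : E → V) (A : Finset E) : Fintype.card V ≤ A.card + comps a b A := by
  let f : (V → ZMod 2) →+ (A → ZMod 2) :=
    { toFun := fun σ e => σ (a e) - σ (b e), map_zero' := by ext; simp
      map_add' := fun _ _ => by ext; simp; ring }
  have h1 := AddSubgroup.card_eq_card_quotient_mul_card_addSubgroup f.ker
  have h2 : Nat.card (_ ⧸ f.ker) ≤ Nat.card (A → ZMod 2) :=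
    Nat.card_le_card_of_injective _ (QuotientAddGroup.kerLift_injective f)
  have h3 : Nat.card f.ker = 2 ^ comps a b A := by
    have := count a b A (ZMod 2)
    rw [ZMod.card, ← Fintype.card_subtype, ← Nat.card_eq_fintype_card] at this
    rw [← this]
    exact Nat.card_congr (Equiv.subtypeEquivRight (fun σ => by
      simp [f, funext_iff, sub_eq_zero]))
  simp only [Nat.card_fun, Nat.card_zmod, Nat.card_eq_fintype_card (α := V),
    Nat.card_eq_fintype_card (α := A), Fintype.card_coe] at h1 h2
  rw [← Nat.pow_le_pow_iff_right (show 1 < 2 by norm_num), pow_add, h1, h3]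
  exact Nat.mul_le_mul_right _ h2

noncomputable def Z (a b : E → V) : Polynomial R :=
  ∑ A : Finset E, Polynomial.C ((MvPolynomial.X 1 - 1) ^ A.card) * Polynomial.X ^ comps a b A

theorem Z_tutte (a b : E → V) [Nonempty V] (h : comps a b univ = 1) :
    (Z a b).eval ((MvPolynomial.X 0 - 1) * (MvPolynomial.X 1 - 1)) =
      (MvPolynomial.X 0 - 1) * (MvPolynomial.X 1 - 1) ^ Fintype.card V * tutte a b := by
  simp only [Z, tutte, Polynomial.eval_finsetSum, mul_sum, Polynomial.eval_mul, Polynomial.eval_C,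
    Polynomial.eval_pow, Polynomial.eval_X, rank, h]
  refine sum_congr rfl (fun A _ => ?_)
  have h1 := rank_le a b A
  have h2 : comps a b A ≤ Fintype.card V := by
    rw [← Nat.card_eq_fintype_card]; exact Nat.card_le_card_of_surjective _ Quot.mk_surjective
  have h3 : 0 < comps a b A :=
    Nat.card_pos_iff.2 ⟨⟨Quot.mk _ (Classical.arbitrary V)⟩, inferInstance⟩
  obtain ⟨k, hk⟩ : ∃ k, comps a b A = k + 1 := ⟨_, (Nat.succ_pred_eq_of_pos h3).symm⟩
  obtain ⟨r, hr⟩ : ∃ r, Fintype.card V = r + (k + 1) := ⟨Fintype.card V - (k + 1), by omega⟩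
  obtain ⟨t, ht⟩ : ∃ t, A.card = r + t := ⟨A.card - r, by omega⟩
  rw [hk, hr, ht, show r + (k + 1) - 1 - (r + (k + 1) - (k + 1)) = k by omega,
    show r + t - (r + (k + 1) - (k + 1)) = t by omega, mul_pow]
  ring

/-- indicator that an edge is monochromatic -/
noncomputable def u {C : Type} (a b : E → V) (σ : V → C) (e : E) : R :=
  if σ (a e) = σ (b e) then 1 else 0

theorem prod_u {C : Type} (a b : E → V) (σ : V → C) (A : Finset E) :
    ∏ e ∈ A, u a b σ e = if ∀ e ∈ A, σ (a e) = σ (b e) then 1 else 0 := by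
  split_ifs with h
  · exact prod_eq_one (fun e he => if_pos (h e he))
  · push Not at h
    obtain ⟨e, he, h⟩ := h
    exact prod_eq_zero he (if_neg h)

theorem potts (a b : E → V) (q : ℕ) : (Z a b).eval (q : R) =
    ∑ σ : V → Fin q, ∏ e, (1 + (MvPolynomial.X 1 - 1) * u a b σ e) := by
  simp only [Z, Polynomial.eval_finsetSum, Polynomial.eval_mul, Polynomial.eval_C,
    Polynomial.eval_pow, Polynomial.eval_X, prod_one_add, powerset_univ]
  rw [sum_comm]
  refine sum_congr rfl (fun A _ => ?_)
  have := count a b A (Fin q)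
  rw [Fintype.card_fin] at this
  simp only [prod_mul_distrib, prod_const, ← mul_sum, prod_u]
  rw [← Nat.cast_pow, ← this, card_filter]
  push_cast
  congr; ext; congr

/-- the far ends of a set of edges at `s` -/
noncomputable def far (a b : E → V) (s : V) (B : Finset E) : Finset V :=
  (B.image a ∪ B.image b).erase s

theorem contr (a b : E → V) (s : V) (B : Finset E) (hB : ∀ e ∈ B, a e = s ∨ b e = s) :
    ∃ l : ℕ, ∀ q : ℕ, ∑ σ : V → Fin q, (∏ e ∈ B, u a b σ e) *
      ∏ e ∈ univ \ B, (1 + (MvPolynomial.X 1 - 1) * u a b σ e) =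
      MvPolynomial.X 1 ^ l * (Z (fun e : {e // proj s (far a b s B) (a e) ≠ proj s (far a b s B) (b e)}
        => proj s (far a b s B) (a e)) (fun e => proj s (far a b s B) (b e))).eval (q : R) := by
  set W := far a b s B with hW
  have ps : proj s W s = ⟨s, Or.inr rfl⟩ := by unfold proj; split_ifs <;> rfl
  have pB : ∀ e ∈ B, proj s W (a e) = proj s W (b e) := by
    intro e he
    have : ∀ v, v = a e ∨ v = b e → proj s W v = ⟨s, Or.inr rfl⟩ := by
      intro v hv
      by_cases h : v = s
      · rw [h, ps]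
      · exact dif_pos (mem_erase.2 ⟨h, by
          rcases hv with rfl | rfl <;> simp [mem_image_of_mem _ he]⟩)
    rw [this _ (Or.inl rfl), this _ (Or.inr rfl)]
  refine ⟨((univ \ B).filter (fun e => proj s W (a e) = proj s W (b e))).card, fun q => ?_⟩
  rw [potts, mul_sum]
  symm
  refine sum_of_injOn (fun τ : {v // v ∉ W ∨ v = s} → Fin q => τ ∘ proj s W) (fun τ _ τ' _ h => ?_) (fun _ _ => mem_univ _)
    (fun σ _ hσ => ?_) (fun τ _ => ?_)
  · ext ⟨v, hv⟩
    have : proj s W v = ⟨v, hv⟩ := by
      rcases hv with hv | rfl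
      exacts [dif_neg hv, ps]
    rw [← this]; exact congrArg Fin.val (congrFun h v)
  · rw [prod_u, if_neg, zero_mul]
    intro h
    refine hσ ⟨fun v => σ v.1, by simp, funext fun v => ?_⟩
    show σ (proj s W v).1 = σ v
    unfold proj
    split_ifs with hv
    · obtain ⟨h1, h2⟩ := mem_erase.1 hv
      rcases mem_union.1 h2 with h2 | h2 <;> obtain ⟨e, he, rfl⟩ := mem_image.1 h2 <;>
        rcases hB e he with h3 | h3
      · exact absurd h3 h1
      · rw [h e he, h3]
      · rw [← h e he, h3]
      · exact absurd h3 h1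
    · rfl
  · rw [prod_eq_one (s := B) (fun e he => by simp [u, pB e he]), one_mul,
      ← prod_filter_mul_prod_filter_not (univ \ B) (fun e => proj s W (a e) = proj s W (b e))]
    congr 1
    · rw [← prod_const]
      exact prod_congr rfl (fun e he => by simp [u, (mem_filter.1 he).2])
    · symm
      exact prod_subtype _ (fun e => by simp; exact fun h he => h (pB e he))
        (fun e => (1 + (MvPolynomial.X 1 - 1) * u a b (τ ∘ proj s W) e))

theorem expand (f : E → R) (v : R) (P D : Finset E) (h : Disjoint P D) :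
    ∑ B ∈ D.powerset, (-v) ^ B.card * ((∏ e ∈ B ∪ P, f e) * ∏ e ∈ univ \ (B ∪ P), (1 + v * f e)) =
      (∏ e ∈ P, f e) * ∏ e ∈ univ \ (D ∪ P), (1 + v * f e) := by
  have : ∏ e ∈ D, (-v * f e + (1 + v * f e)) = 1 := prod_eq_one (fun _ _ => by ring)
  rw [prod_add] at this
  rw [← one_mul ((∏ e ∈ P, f e) * _)]
  nth_rewrite 2 [← this]
  rw [sum_mul]
  refine sum_congr rfl (fun B hB => ?_)
  have hB' := mem_powerset.1 hB
  have : univ \ (B ∪ P) = (D \ B) ∪ univ \ (D ∪ P) := by
    ext e
    have := @mem_of_subset _ _ _ e hB'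
    have : e ∈ P → e ∉ D := fun h' => disjoint_left.1 h h'
    simp only [mem_sdiff, mem_univ, mem_union]; tauto
  rw [this, prod_union (h.symm.mono_left hB'), prod_union (disjoint_left.2 (fun e h1 h2 => by
    simp only [mem_sdiff, mem_union] at h1 h2; tauto)), prod_mul_distrib, prod_const]
  ring

theorem free (s w : V) (h : w ≠ s) (q : ℕ) (f : (V → Fin q) → R)
    (hf : ∀ σ c, f (Function.update σ s c) = f σ) :
    ∑ σ, f σ = q * ∑ σ, (if σ s = σ w then 1 else 0) * f σ := by
  have e : ∀ g : (V → Fin q) → R, ∑ σ, ∑ c, g (Function.update σ s c) = q * ∑ σ, g σ := by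
    intro g
    rw [← sum_product', mul_sum]
    have := Function.Involutive.bijective (f := fun p : (V → Fin q) × Fin q =>
      (Function.update p.1 s p.2, p.1 s)) (fun p => by simp)
    rw [univ_product_univ, this.sum_comp (fun p => g p.1), ← univ_product_univ, sum_product]
    simp
  rw [← e]
  refine sum_congr rfl (fun σ _ => ?_)
  simp [hf, Function.update_of_ne h]

theorem result (V E : Type) [Fintype V] [Fintype E] (a b : E → V) (hc : comps a b univ = 1)
    (h2 : 2 ≤ Fintype.card V) (s : V) :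
    tutte a b ∈ Ideal.span {p | ∃ W : Finset V, W.Nonempty ∧
      (∀ w ∈ W, w ≠ s ∧ ∃ e, (a e = s ∧ b e = w) ∨ (a e = w ∧ b e = s)) ∧ p = tutteC a b s W} := by
  have : Nonempty V := ⟨s⟩
  set I := Ideal.span {p | ∃ W : Finset V, W.Nonempty ∧
      (∀ w ∈ W, w ≠ s ∧ ∃ e, (a e = s ∧ b e = w) ∨ (a e = w ∧ b e = s)) ∧ p = tutteC a b s W}
  have sub := (Nat.card_eq_one_iff_unique.1 hc).1
  let D := univ.filter (fun e => (a e = s ∨ b e = s) ∧ a e ≠ b e)
  obtain ⟨e0, h0⟩ : D.Nonempty := by
    by_contra hn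
    obtain ⟨w, hw⟩ := Fintype.exists_ne_of_one_lt_card (α := V) (by omega) s
    have := congrArg (Quot.lift (fun v => v = s) (fun x y ⟨e, _, h1, h2⟩ => by
      have : e ∉ D := fun h => hn ⟨e, h⟩
      simp only [D, mem_filter, mem_univ, true_and, h1, h2] at this
      grind)) (sub.elim (Quot.mk _ w) (Quot.mk _ s))
    exact hw (by simpa using this)
  choose! l hl using contr a b s
  let ZB : Finset E → Polynomial R := fun B => Polynomial.C (MvPolynomial.X 1 ^ l B) *
    Z (fun e : {e // proj s (far a b s B) (a e) ≠ proj s (far a b s B) (b e)}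
        => proj s (far a b s B) (a e)) (fun e => proj s (far a b s B) (b e))
  set v : R := MvPolynomial.X 1 - 1 with hv
  set x : R := MvPolynomial.X 0 - 1 with hx
  have hD : ∀ B ⊆ D, ∀ e ∈ B, a e = s ∨ b e = s := fun B hB e he => (mem_filter.1 (hB he)).2.1
  have key : Z a b + ∑ B ∈ D.powerset.erase ∅, Polynomial.C ((-v) ^ B.card) * ZB B =
      Polynomial.X * ∑ B ∈ (D.erase e0).powerset, Polynomial.C ((-v) ^ B.card) * ZB (B ∪ {e0}) := by
    refine Polynomial.eq_of_infinite_eval_eq _ _ ((Set.infinite_range_of_injective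
      (Nat.cast_injective (R := R))).mono ?_)
    rintro _ ⟨q, rfl⟩
    simp only [Set.mem_ofPred_eq, Polynomial.eval_add, Polynomial.eval_finsetSum, Polynomial.eval_mul,
      Polynomial.eval_C, Polynomial.eval_X, ZB]
    rw [sum_congr rfl (fun B hB => by rw [← hl B (hD B (mem_powerset.1 (mem_of_mem_erase hB))) q, mul_sum]),
      sum_congr (s₁ := (D.erase e0).powerset) rfl (fun B hB => by
        rw [← hl _ (hD _ (union_subset ((mem_powerset.1 hB).trans (erase_subset _ _))
          (singleton_subset_iff.2 h0))) q, mul_sum]), sum_comm, sum_comm (s := (D.erase e0).powerset),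
      potts, ← sum_add_distrib]
    simp only [expand _ v {e0} (D.erase e0) (by simp), prod_singleton]
    have e1 : D.erase e0 ∪ {e0} = D := by rw [union_comm]; exact insert_erase h0
    obtain ⟨w, hw, hu⟩ : ∃ w, w ≠ s ∧ ∀ σ : V → Fin q, u a b σ e0 = if σ s = σ w then 1 else 0 := by
      obtain ⟨h1 | h1, h2⟩ := (mem_filter.1 h0).2
      · exact ⟨b e0, fun h => h2 (h1.trans h.symm), fun σ => by rw [u, h1]; congr⟩
      · exact ⟨a e0, fun h => h2 (h.trans h1.symm), fun σ => by simp only [u, h1, eq_comm]⟩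
    simp only [e1, hu]
    rw [← free s w hw q]
    · refine sum_congr rfl (fun σ _ => ?_)
      have := expand (u a b σ) v ∅ D (by simp)
      rw [← add_sum_erase _ _ (empty_mem_powerset D)] at this
      simp only [union_empty, card_empty, pow_zero, prod_empty, one_mul, sdiff_empty] at this
      exact this
    · intro σ c
      refine prod_congr rfl (fun e he => ?_)
      simp only [D, mem_sdiff, mem_filter, mem_univ, true_and] at he
      by_cases h : a e = b e
      · simp [u, h]
      · have h1 : a e ≠ s := fun h' => he ⟨Or.inl h', h⟩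
        have h2 : b e ≠ s := fun h' => he ⟨Or.inr h', h⟩
        simp [u, h1, h2]
  let c : R := x * v ^ Fintype.card V
  let J := Submodule.map (LinearMap.mulLeft R c) I
  have mem : ∀ B ⊆ D, B.Nonempty → v ^ B.card * (ZB B).eval (x * v) ∈ J := by
    intro B hB ⟨e, he⟩
    set W := far a b s B with hW
    have hW1 : ∀ w ∈ W, w ≠ s ∧ ∃ e ∈ B, (a e = s ∧ b e = w) ∨ (a e = w ∧ b e = s) := by
      intro w hw
      obtain ⟨h1, h2⟩ := mem_erase.1 hw
      refine ⟨h1, ?_⟩
      rcases mem_union.1 h2 with h2 | h2 <;> obtain ⟨e, he, rfl⟩ := mem_image.1 h2 <;>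
        refine ⟨e, he, ?_⟩ <;> have := hD B hB e he <;> tauto
    have hW2 : W.card ≤ B.card := by
      refine le_trans (card_le_card (fun w hw => ?_))
        (card_image_le (f := fun e => if a e = s then b e else a e))
      obtain ⟨h1, e, he, h2⟩ := hW1 w hw
      exact mem_image.2 ⟨e, he, by grind⟩
    have hT : tutteC a b s W ∈ I := Ideal.subset_span ⟨W, by
      obtain ⟨h1 | h1, h2⟩ := (mem_filter.1 (hB he)).2
      · exact ⟨b e, mem_erase.2 ⟨fun h => h2 (h1.trans h.symm), by simp [mem_image_of_mem _ he]⟩⟩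
      · exact ⟨a e, mem_erase.2 ⟨fun h => h2 (h.trans h1.symm), by simp [mem_image_of_mem _ he]⟩⟩,
      fun w hw => ⟨(hW1 w hw).1, (hW1 w hw).2.imp fun _ h => h.2⟩, rfl⟩
    have : Nonempty {v // v ∉ W ∨ v = s} := ⟨⟨s, Or.inr rfl⟩⟩
    have cW : Fintype.card {v // v ∉ W ∨ v = s} + W.card = Fintype.card V := by
      rw [Fintype.card_subtype, ← card_compl_add_card W]
      congr 2; ext v; simp only [mem_filter, mem_univ, true_and, mem_compl]
      exact ⟨fun h => h.elim id (fun h h' => (hW1 v h').1 h), Or.inl⟩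
    obtain ⟨t, ht⟩ := Nat.exists_eq_add_of_le hW2
    refine ⟨v ^ t * MvPolynomial.X 1 ^ l B * tutteC a b s W, I.mul_mem_left _ hT, ?_⟩
    simp only [ZB, Polynomial.eval_mul, Polynomial.eval_C, LinearMap.mulLeft_apply, c]
    rw [Z_tutte, ← cW, ht]
    · simp only [tutteC, ← hv, ← hx]; ring
    · refine Nat.card_eq_one_iff_unique.2 ⟨⟨?_⟩, ⟨Quot.mk _ ⟨s, Or.inr rfl⟩⟩⟩
      rintro ⟨y⟩ ⟨z⟩
      have pr : ∀ y : {v // v ∉ W ∨ v = s}, proj s W y = y := by
        rintro ⟨y, hy⟩
        unfold proj; split_ifs with h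
        · exact Subtype.ext (hy.resolve_left (fun h' => h' h)).symm
        · rfl
      rw [← pr y, ← pr z]
      refine congrArg (Quot.lift (fun v => Quot.mk _ (proj s W v)) ?_)
        (sub.elim (Quot.mk _ y.1) (Quot.mk _ z.1))
      rintro _ _ ⟨e, -, rfl, rfl⟩
      by_cases h : proj s W (a e) = proj s W (b e)
      · rw [h]
      · exact Quot.sound ⟨⟨e, h⟩, mem_univ _, rfl, rfl⟩
  have k2 := congrArg (Polynomial.eval (x * v)) key
  simp only [Polynomial.eval_add, Polynomial.eval_finsetSum, Polynomial.eval_mul,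
      Polynomial.eval_C, Polynomial.eval_X, mul_sum] at k2
  rw [Z_tutte a b hc] at k2
  have : c * tutte a b ∈ J := by
    rw [eq_sub_of_add_eq k2]
    refine J.sub_mem (J.sum_mem fun B hB => ?_) (J.sum_mem fun B hB => ?_)
    · have hB' := mem_powerset.1 hB
      have := J.smul_mem (x * (-1) ^ B.card) (mem (B ∪ {e0}) (union_subset (hB'.trans (erase_subset _ _))
          (singleton_subset_iff.2 h0)) (by simp))
      rw [card_union_of_disjoint (disjoint_singleton_right.2 fun h => by simpa using hB' h)] at this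
      convert this using 1
      rw [neg_pow]; simp; ring
    · have := J.smul_mem ((-1) ^ B.card) (mem B (mem_powerset.1 (mem_of_mem_erase hB))
        (nonempty_iff_ne_empty.2 (ne_of_mem_erase hB)))
      convert this using 1
      rw [neg_pow]; simp; ring
  obtain ⟨t, ht, e⟩ := this
  have ne : ∀ i : Fin 2, (MvPolynomial.X i - 1 : R) ≠ 0 := fun i h => by
    simpa using congrArg (MvPolynomial.eval (fun _ => 0)) h
  exact mul_left_cancel₀ (mul_ne_zero (ne 0) (pow_ne_zero _ (ne 1))) e ▸ ht

end Pool.Agent.Results.MP_8e541a_co.Ideal
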